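import Mathlib

/-!
# Points of the convex hull are `lam`-reconstructible

Let `X` be a nonempty closed subset of `ℝⁿ` and `p` a point of its convex hull with `d(p) > lam`.
We maximise `Φ(a) = d(a)² - (1 + δ) |a - p|²`. The function `d(a)² - |a - p|²` is bounded above, since
`p` is in the convex hull, so a maximum point `a` exists. Optimality says that the point
`q = p - δ (a - p)` lies in the convex hull of the set `m(a)` of nearest points of `a`, so that `m(a)`
is not contained in a ball of radius less than `d(q)`. For small `δ` the point `q` is close to `p`.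
Finally `Φ(a) ≥ Φ(p) > 0` says that `p` lies in the ball with centre `a` and radius `d(a)`.
-/

set_option autoImplicit false

open Metric Set Filter Topology
open scoped RealInnerProductSpace

namespace Pool.Agent.Results.MP_15b8d6_gt.Reconstructible

/-- `m(a)`: the set of the points of `X` nearest to `a`. -/
def nearest {n : ℕ} (X : Set (EuclideanSpace ℝ (Fin n))) (a : EuclideanSpace ℝ (Fin n)) :
    Set (EuclideanSpace ℝ (Fin n)) :=
  {x | x ∈ X ∧ dist a x = infDist a X}

/-- The medial axis `M_X`: the points with more than one nearest point. -/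
def medialAxis {n : ℕ} (X : Set (EuclideanSpace ℝ (Fin n))) : Set (EuclideanSpace ℝ (Fin n)) :=
  {a | ∃ x ∈ nearest X a, ∃ y ∈ nearest X a, x ≠ y}

/-- The `lam`-medial axis: the points `a` of the medial axis for which `m(a)` is not contained in
any closed ball of radius `lam`. -/
def lamMedialAxis {n : ℕ} (X : Set (EuclideanSpace ℝ (Fin n))) (lam : ℝ) :
    Set (EuclideanSpace ℝ (Fin n)) :=
  {a | a ∈ medialAxis X ∧ ∀ c : EuclideanSpace ℝ (Fin n), ¬ nearest X a ⊆ closedBall c lam}

section aux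

variable {n : ℕ}

/-- For `p` in the convex hull the function `d(a)² - |a - p|²` is bounded above. -/
lemma exists_bound {X : Set (EuclideanSpace ℝ (Fin n))} {p : EuclideanSpace ℝ (Fin n)}
    (hp : p ∈ convexHull ℝ X) :
    ∃ S : ℝ, ∀ a, infDist a X ^ 2 ≤ ‖a - p‖ ^ 2 + S := by
  have hsub : X ⊆ {p | ∃ S : ℝ, ∀ a, infDist a X ^ 2 ≤ ‖a - p‖ ^ 2 + S} := by
    intro x hx
    refine ⟨0, fun a => ?_⟩
    have h1 : infDist a X ≤ ‖a - x‖ := by
      rw [← dist_eq_norm]; exact infDist_le_dist_of_mem hx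
    have h2 : 0 ≤ infDist a X := infDist_nonneg
    nlinarith
  have hconv : Convex ℝ {p : EuclideanSpace ℝ (Fin n) | ∃ S : ℝ, ∀ a,
      infDist a X ^ 2 ≤ ‖a - p‖ ^ 2 + S} := by
    rintro p₁ ⟨S₁, h₁⟩ p₂ ⟨S₂, h₂⟩ s t hs ht hst
    refine ⟨s * S₁ + t * S₂ + s * t * ‖p₁ - p₂‖ ^ 2, fun a => ?_⟩
    have key : ‖a - (s • p₁ + t • p₂)‖ ^ 2 =
        s * ‖a - p₁‖ ^ 2 + t * ‖a - p₂‖ ^ 2 - s * t * ‖p₁ - p₂‖ ^ 2 := by
      obtain rfl : t = 1 - s := by linarith
      have e : a - (s • p₁ + (1 - s) • p₂) = s • (a - p₁) + (1 - s) • (a - p₂) := by module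
      have e2 : p₁ - p₂ = (a - p₂) - (a - p₁) := by abel
      rw [e, e2]
      generalize a - p₁ = u
      generalize a - p₂ = v
      simp only [← real_inner_self_eq_norm_sq, inner_add_left, inner_add_right, inner_sub_left,
        inner_sub_right, real_inner_smul_left, real_inner_smul_right]
      rw [real_inner_comm u v]
      ring
    rw [key]
    have e1 := mul_le_mul_of_nonneg_left (h₁ a) hs
    have e2 := mul_le_mul_of_nonneg_left (h₂ a) ht
    have e3 : infDist a X ^ 2 = s * infDist a X ^ 2 + t * infDist a X ^ 2 := by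
      rw [← add_mul, hst, one_mul]
    rw [e3]
    nlinarith
  exact convexHull_min hsub hconv hp

/-- First order optimality: if `a` maximises `d(a)² - (1 + δ) |a - p|²` and `v` is a vector, then some
nearest point `x` of `a` satisfies `⟪x - (p - δ (a - p)), v⟫ ≤ 0`. -/
lemma optimality {X : Set (EuclideanSpace ℝ (Fin n))} (hX : IsClosed X) (hne : X.Nonempty)
    {p a : EuclideanSpace ℝ (Fin n)} {δ : ℝ} (hδ : 0 < δ)
    (hmax : ∀ b, infDist b X ^ 2 - (1 + δ) * ‖b - p‖ ^ 2 ≤ infDist a X ^ 2 - (1 + δ) * ‖a - p‖ ^ 2)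
    (v : EuclideanSpace ℝ (Fin n)) :
    ∃ x ∈ nearest X a, ⟪x - (p - δ • (a - p)), v⟫ ≤ 0 := by
  -- nearest points of the points `a - t v`
  have hex : ∀ k : ℕ, ∃ x ∈ X, infDist (a - (1 / ((k : ℝ) + 1)) • v) X =
      dist (a - (1 / ((k : ℝ) + 1)) • v) x := fun k => hX.exists_infDist_eq_dist hne _
  choose x hxX hx using hex
  set t : ℕ → ℝ := fun k => 1 / ((k : ℝ) + 1) with ht
  have ht0 : Tendsto t atTop (𝓝 0) := tendsto_one_div_add_atTop_nhds_zero_nat
  have htpos : ∀ k, 0 < t k := fun k => by positivity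
  have hb : Tendsto (fun k => a - t k • v) atTop (𝓝 a) := by
    have : Tendsto (fun k => a - t k • v) atTop (𝓝 (a - (0 : ℝ) • v)) :=
      tendsto_const_nhds.sub (ht0.smul_const v)
    simpa using this
  have hd : Tendsto (fun k => infDist (a - t k • v) X) atTop (𝓝 (infDist a X)) :=
    ((continuous_infDist_pt X).tendsto a).comp hb
  -- the inequality for the points `x k`
  have hineq : ∀ k, ⟪x k - (p - δ • (a - p)), v⟫ ≤ δ * t k * ‖v‖ ^ 2 := by
    intro k
    have h1 := hmax (a - t k • v)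
    have h2 : infDist (a - t k • v) X = ‖a - t k • v - x k‖ := by
      rw [← dist_eq_norm]; exact hx k
    have h3 : infDist a X ≤ ‖a - x k‖ := by
      rw [← dist_eq_norm]; exact infDist_le_dist_of_mem (hxX k)
    have h4 : 0 ≤ infDist a X := infDist_nonneg
    have h5 : infDist a X ^ 2 ≤ ‖a - x k‖ ^ 2 := by nlinarith
    rw [h2] at h1
    have e1 : ‖a - t k • v - x k‖ ^ 2 = ‖a - x k‖ ^ 2 - 2 * t k * ⟪a - x k, v⟫ + t k ^ 2 * ‖v‖ ^ 2 := by
      have : a - t k • v - x k = (a - x k) - t k • v := by abel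
      rw [this, norm_sub_sq_real, real_inner_smul_right, norm_smul, mul_pow, Real.norm_eq_abs,
        sq_abs]
      ring
    have e2 : ‖a - t k • v - p‖ ^ 2 = ‖a - p‖ ^ 2 - 2 * t k * ⟪a - p, v⟫ + t k ^ 2 * ‖v‖ ^ 2 := by
      have : a - t k • v - p = (a - p) - t k • v := by abel
      rw [this, norm_sub_sq_real, real_inner_smul_right, norm_smul, mul_pow, Real.norm_eq_abs,
        sq_abs]
      ring
    rw [e1, e2] at h1
    have e3 : ⟪x k - (p - δ • (a - p)), v⟫ = -⟪a - x k, v⟫ + (1 + δ) * ⟪a - p, v⟫ := by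
      have : x k - (p - δ • (a - p)) = -(a - x k) + (1 + δ) • (a - p) := by module
      rw [this, inner_add_left, inner_neg_left, real_inner_smul_left]
    rw [e3]
    have h6 : 2 * t k * (-⟪a - x k, v⟫ + (1 + δ) * ⟪a - p, v⟫) ≤ δ * t k ^ 2 * ‖v‖ ^ 2 := by
      nlinarith
    have h7 := htpos k
    have h8 : 0 ≤ ‖v‖ ^ 2 := sq_nonneg _
    have h9 : t k * (2 * (-⟪a - x k, v⟫ + (1 + δ) * ⟪a - p, v⟫)) ≤ t k * (δ * t k * ‖v‖ ^ 2) := by
      nlinarith
    have h10 := le_of_mul_le_mul_left h9 h7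
    have h11 : 0 ≤ δ * t k * ‖v‖ ^ 2 := by positivity
    linarith
  -- the sequence is bounded
  have hbdd : ∀ k, x k ∈ closedBall a (infDist a X + 2 * ‖v‖) := by
    intro k
    have h1 : t k ≤ 1 := by
      rw [ht]; simp only
      rw [div_le_one (by positivity)]
      have : (0 : ℝ) ≤ k := Nat.cast_nonneg k
      linarith
    have h2 : dist (a - t k • v) a ≤ ‖v‖ := by
      rw [dist_eq_norm]
      have : a - t k • v - a = -(t k • v) := by abel
      rw [this, norm_neg, norm_smul, Real.norm_eq_abs, abs_of_pos (htpos k)]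
      exact mul_le_of_le_one_left (norm_nonneg v) h1
    have h3 : infDist (a - t k • v) X ≤ infDist a X + dist (a - t k • v) a :=
      infDist_le_infDist_add_dist
    rw [mem_closedBall]
    calc dist (x k) a ≤ dist (x k) (a - t k • v) + dist (a - t k • v) a := dist_triangle _ _ _
      _ ≤ _ := by
        have h4 : dist (x k) (a - t k • v) = infDist (a - t k • v) X := by
          rw [dist_comm]; exact (hx k).symm
        linarith
  obtain ⟨x₀, hx₀, φ, hφ, hlim⟩ := (isCompact_closedBall a (infDist a X + 2 * ‖v‖)).tendsto_subseq hbdd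
  have hx₀X : x₀ ∈ X := hX.mem_of_tendsto hlim (Eventually.of_forall fun k => hxX _)
  refine ⟨x₀, ⟨hx₀X, ?_⟩, ?_⟩
  · have h1 : Tendsto (fun k => dist (a - t (φ k) • v) (x (φ k))) atTop (𝓝 (dist a x₀)) :=
      (hb.comp hφ.tendsto_atTop).dist hlim
    have h2 : Tendsto (fun k => dist (a - t (φ k) • v) (x (φ k))) atTop (𝓝 (infDist a X)) := by
      have h3 : (fun k => dist (a - t (φ k) • v) (x (φ k))) =
          fun k => infDist (a - t (φ k) • v) X := by
        ext k; exact (hx _).symm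
      rw [h3]
      exact hd.comp hφ.tendsto_atTop
    exact tendsto_nhds_unique h1 h2
  · have h1 : Tendsto (fun k => ⟪x (φ k) - (p - δ • (a - p)), v⟫) atTop
        (𝓝 ⟪x₀ - (p - δ • (a - p)), v⟫) :=
      (hlim.sub_const _).inner tendsto_const_nhds
    have h2 : Tendsto (fun k => δ * t (φ k) * ‖v‖ ^ 2) atTop (𝓝 0) := by
      have : Tendsto (fun k => δ * t (φ k) * ‖v‖ ^ 2) atTop (𝓝 (δ * 0 * ‖v‖ ^ 2)) :=
        ((ht0.comp hφ.tendsto_atTop).const_mul δ).mul_const _
      simpa using this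
    exact le_of_tendsto_of_tendsto' h1 h2 fun k => hineq _

end aux

/-- **Every point of the convex hull at distance more than `lam` is `lam`-reconstructible.** For
every nonempty closed set `X ⊆ ℝⁿ`, every `lam ≥ 0` and every `p ∈ conv X` with `d(p) > lam` there is
a point `a` of the `lam`-medial axis of `X` with `|p - a| < d(a)`. -/
theorem result (n : ℕ) (X : Set (EuclideanSpace ℝ (Fin n))) (hX : IsClosed X) (hne : X.Nonempty)
    (lam : ℝ) (hlam : 0 ≤ lam) (p : EuclideanSpace ℝ (Fin n)) (hp : p ∈ convexHull ℝ X)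
    (hd : lam < infDist p X) :
    p ∈ ⋃ a ∈ lamMedialAxis X lam, ball a (infDist a X) := by
  obtain ⟨S, hS⟩ := exists_bound hp
  have hS0 : 0 < S := by
    have := hS p
    rw [sub_self, norm_zero] at this
    nlinarith
  set e : ℝ := infDist p X - lam with he
  have he0 : 0 < e := by linarith
  set δ : ℝ := e ^ 2 / (2 * S) with hδ
  have hδ0 : 0 < δ := by positivity
  have hδS : δ * S < e ^ 2 := by
    rw [hδ]
    have : e ^ 2 / (2 * S) * S = e ^ 2 / 2 := by field_simp
    rw [this]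
    have := pow_pos he0 2
    linarith
  -- a maximum point of `Φ`
  obtain ⟨a, hmax⟩ : ∃ a, ∀ b, infDist b X ^ 2 - (1 + δ) * ‖b - p‖ ^ 2 ≤
      infDist a X ^ 2 - (1 + δ) * ‖a - p‖ ^ 2 := by
    have hcont : Continuous fun b : EuclideanSpace ℝ (Fin n) =>
        infDist b X ^ 2 - (1 + δ) * ‖b - p‖ ^ 2 := by
      have := continuous_infDist_pt X
      fun_prop
    have hR : (0 : ℝ) ≤ S / δ + 1 := by positivity
    obtain ⟨a, ha, hmax⟩ := (isCompact_closedBall p (S / δ + 1)).exists_isMaxOn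
      ⟨p, mem_closedBall_self hR⟩ hcont.continuousOn
    refine ⟨a, fun b => ?_⟩
    by_cases hb : b ∈ closedBall p (S / δ + 1)
    · exact hmax hb
    · have h1 : S / δ + 1 < ‖b - p‖ := by
        rw [mem_closedBall, dist_eq_norm, not_le] at hb
        exact hb
      have h2 : infDist p X ^ 2 - (1 + δ) * ‖p - p‖ ^ 2 ≤ _ := hmax (mem_closedBall_self hR)
      rw [sub_self, norm_zero] at h2
      have h3 := hS b
      have h4 : S < δ * ‖b - p‖ ^ 2 := by
        have h5 : S / δ < ‖b - p‖ := by linarith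
        have h6 : (1 : ℝ) < ‖b - p‖ := by
          have : 0 < S / δ := by positivity
          linarith
        rw [div_lt_iff₀ hδ0] at h5
        nlinarith
      have h7 : 0 ≤ infDist p X ^ 2 := sq_nonneg _
      simp only at h2 ⊢
      nlinarith
  have hΦ := hmax p
  rw [sub_self, norm_zero] at hΦ
  have hSa := hS a
  have hq : ‖(p - δ • (a - p)) - p‖ < e := by
    have h1 : (p - δ • (a - p)) - p = -(δ • (a - p)) := by abel
    rw [h1, norm_neg, norm_smul, Real.norm_eq_abs, abs_of_pos hδ0]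
    have h2 : δ * ‖a - p‖ ^ 2 ≤ S := by nlinarith [sq_nonneg (infDist p X)]
    have h3 : (δ * ‖a - p‖) ^ 2 < e ^ 2 := by
      calc (δ * ‖a - p‖) ^ 2 = δ * (δ * ‖a - p‖ ^ 2) := by ring
        _ ≤ δ * S := by gcongr
        _ < e ^ 2 := hδS
    exact lt_of_pow_lt_pow_left₀ 2 he0.le h3
  have hdq : lam < infDist (p - δ • (a - p)) X := by
    have h1 : infDist p X ≤ infDist (p - δ • (a - p)) X + dist p (p - δ • (a - p)) :=
      infDist_le_infDist_add_dist
    rw [dist_comm, dist_eq_norm] at h1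
    linarith
  have hnot : ∀ c : EuclideanSpace ℝ (Fin n), ¬ nearest X a ⊆ closedBall c lam := by
    intro c hc
    obtain ⟨x, hx, hx'⟩ := optimality hX hne hδ0 hmax (c - (p - δ • (a - p)))
    set q := p - δ • (a - p) with hqdef
    have h1 : dist x c ≤ lam := hc hx
    have h2 : lam < dist q x := hdq.trans_le (infDist_le_dist_of_mem hx.1)
    rw [dist_eq_norm] at h1 h2
    rw [norm_sub_rev] at h2
    have h3 : ‖x - c‖ ^ 2 = ‖x - q‖ ^ 2 - 2 * ⟪x - q, c - q⟫ + ‖c - q‖ ^ 2 := by
      have : x - c = (x - q) - (c - q) := by abel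
      rw [this, norm_sub_sq_real]
    have h4 : ‖x - c‖ ^ 2 < ‖x - q‖ ^ 2 := by nlinarith [norm_nonneg (x - c)]
    nlinarith [sq_nonneg ‖c - q‖]
  have haX : a ∈ medialAxis X := by
    obtain ⟨x, hxX, hx⟩ := hX.exists_infDist_eq_dist hne a
    have hxn : x ∈ nearest X a := ⟨hxX, hx.symm⟩
    by_contra hcon
    apply hnot x
    intro y hy
    have : y = x := by
      by_contra hyx
      exact hcon ⟨y, hy, x, hxn, hyx⟩
    rw [this]
    exact mem_closedBall_self hlam
  refine mem_iUnion₂.2 ⟨a, ⟨haX, hnot⟩, ?_⟩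
  rw [mem_ball, dist_comm, dist_eq_norm]
  have h1 : 0 < infDist p X ^ 2 := by
    have : 0 < infDist p X := by linarith
    positivity
  have h2 : ‖a - p‖ ^ 2 < infDist a X ^ 2 := by nlinarith [sq_nonneg ‖a - p‖]
  exact lt_of_pow_lt_pow_left₀ 2 infDist_nonneg h2

end Pool.Agent.Results.MP_15b8d6_gt.Reconstructible
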